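import Mathlib

set_option autoImplicit false

/-!
# A condition of height 1 with the local-global property for idempotent algebras only

The condition `Σ` consists of the three identities
`p(x, y, y) ≈ u(x)`, `p(x, x, y) ≈ q(x, y, y)`, `q(x, x, y) ≈ u(y)`
(the height 1 form of the Hagemann-Mitschke terms for congruence 3-permutability). It has the
`3`-local-global property for idempotent algebras, but for no `k` it has the `k`-local-global
property for the class of all algebras.
-/

namespace Pool.Agent.Results.MP_c8915d_al.HagemannMitschke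

universe u

/-- A (universal) algebra: a nonempty set with basic operations, of finite arities, indexed by an
arbitrary set. -/
structure Alg : Type (u + 1) where
  /-- the underlying set -/
  A : Type u
  /-- it is not empty -/
  nonempty : Nonempty A
  /-- the index set of the basic operations -/
  ι : Type u
  /-- the arities of the basic operations -/
  ar : ι → ℕ
  /-- the basic operations -/
  op : (i : ι) → (Fin (ar i) → A) → A

/-- All basic operations satisfy `f(x, …, x) = x`. -/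
def Alg.Idempotent (M : Alg.{u}) : Prop := ∀ (i : M.ι) (a : M.A), M.op i (fun _ => a) = a

/-- The clone of term operations: the smallest set of operations that contains the projections and
is closed under composition with basic operations. -/
inductive Clo (M : Alg.{u}) (r : ℕ) : ((Fin r → M.A) → M.A) → Prop
  | proj (j : Fin r) : Clo M r (fun x => x j)
  | comp (i : M.ι) (g : Fin (M.ar i) → (Fin r → M.A) → M.A) (hg : ∀ j, Clo M r (g j)) :
      Clo M r (fun x => M.op i (fun j => g j x))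

/-- A strong Maltsev condition of height 1: function symbols `0, …, m - 1` with their arities, and
a set of identities in the variables `0, …, n - 1`; a side of an identity is a pair consisting of a
symbol `j` and a map `σ : [ar j] → [n]`, and stands for `d_j(x_{σ(1)}, …, x_{σ(ar j)})`. There are
only finitely many such sides, so that the set of the identities is finite. -/
structure Height1 where
  /-- the number of function symbols -/
  m : ℕ
  /-- the arities of the function symbols -/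
  ar : Fin m → ℕ
  /-- the number of variables -/
  n : ℕ
  /-- the identities -/
  ids : Set ((Σ j : Fin m, Fin (ar j) → Fin n) × (Σ j : Fin m, Fin (ar j) → Fin n))

/-- `M` satisfies `Σ` on `F ⊆ Aⁿ`. -/
def SatOn (M : Alg.{u}) (S : Height1) (F : Set (Fin S.n → M.A)) : Prop :=
  ∃ d : (j : Fin S.m) → (Fin (S.ar j) → M.A) → M.A, (∀ j, Clo M (S.ar j) (d j)) ∧
    ∀ e ∈ S.ids, ∀ x ∈ F, d e.1.1 (fun j => x (e.1.2 j)) = d e.2.1 (fun j => x (e.2.2 j))

/-- The `k`-local-global property for the class `𝒦` of algebras. The condition `|A|ⁿ ≥ k` says that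
there is a set `F ⊆ Aⁿ` with exactly `k` elements. -/
def KLocalGlobal (𝒦 : Alg.{u} → Prop) (k : ℕ) (S : Height1) : Prop :=
  ∀ M : Alg.{u}, 𝒦 M → (∃ F : Set (Fin S.n → M.A), F.Finite ∧ F.ncard = k) →
    (∀ F : Set (Fin S.n → M.A), F.Finite → F.ncard = k → SatOn M S F) →
    ∀ F : Set (Fin S.n → M.A), F.Finite → SatOn M S F

/-- The local-global property for the class `𝒦` of algebras. -/
def LocalGlobal (𝒦 : Alg.{u} → Prop) (S : Height1) : Prop :=
  ∃ k : ℕ, 1 ≤ k ∧ KLocalGlobal 𝒦 k S

/-- the arities of the symbols `p`, `q`, `u` -/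
def hmAr : Fin 3 → ℕ := ![3, 3, 1]

/-- the side `p(x, y, y)` -/
def pxyy : Σ j : Fin 3, Fin (hmAr j) → Fin 2 := ⟨0, (![0, 1, 1] : Fin 3 → Fin 2)⟩
/-- the side `p(x, x, y)` -/
def pxxy : Σ j : Fin 3, Fin (hmAr j) → Fin 2 := ⟨0, (![0, 0, 1] : Fin 3 → Fin 2)⟩
/-- the side `q(x, y, y)` -/
def qxyy : Σ j : Fin 3, Fin (hmAr j) → Fin 2 := ⟨1, (![0, 1, 1] : Fin 3 → Fin 2)⟩
/-- the side `q(x, x, y)` -/
def qxxy : Σ j : Fin 3, Fin (hmAr j) → Fin 2 := ⟨1, (![0, 0, 1] : Fin 3 → Fin 2)⟩
/-- the side `u(x)` -/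
def ux : Σ j : Fin 3, Fin (hmAr j) → Fin 2 := ⟨2, (![0] : Fin 1 → Fin 2)⟩
/-- the side `u(y)` -/
def uy : Σ j : Fin 3, Fin (hmAr j) → Fin 2 := ⟨2, (![1] : Fin 1 → Fin 2)⟩

/-- `p(x, y, y) ≈ u(x)`, `p(x, x, y) ≈ q(x, y, y)`, `q(x, x, y) ≈ u(y)` -/
def HM : Height1 where
  m := 3
  ar := hmAr
  n := 2
  ids := {(pxyy, ux), (pxxy, qxyy), (qxxy, uy)}

/-! ### Clones -/

lemma Clo.subst {M : Alg.{u}} {r s : ℕ} {g : (Fin s → M.A) → M.A} (hg : Clo M s g)
    (h : Fin s → (Fin r → M.A) → M.A) (hh : ∀ j, Clo M r (h j)) :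
    Clo M r (fun x => g (fun j => h j x)) := by
  induction hg with
  | proj j => exact hh j
  | comp i g _ ih => exact Clo.comp i (fun j x => g j (fun l => h l x)) ih

lemma Clo.idem {M : Alg.{u}} (hM : M.Idempotent) {r : ℕ} {g : (Fin r → M.A) → M.A}
    (hg : Clo M r g) (a : M.A) : g (fun _ => a) = a := by
  induction hg with
  | proj j => rfl
  | comp i g _ ih =>
    show M.op i (fun j => g j (fun _ => a)) = a
    simp only [ih]
    exact hM i a

/-- ternary term operations -/
def T3 (M : Alg.{u}) (p : M.A → M.A → M.A → M.A) : Prop :=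
  Clo M 3 (fun x => p (x 0) (x 1) (x 2))

lemma T3.x {M : Alg.{u}} : T3 M (fun x _ _ => x) := Clo.proj 0
lemma T3.y {M : Alg.{u}} : T3 M (fun _ y _ => y) := Clo.proj 1
lemma T3.z {M : Alg.{u}} : T3 M (fun _ _ z => z) := Clo.proj 2

lemma T3.comp {M : Alg.{u}} {p a b c : M.A → M.A → M.A → M.A} (hp : T3 M p) (ha : T3 M a)
    (hb : T3 M b) (hc : T3 M c) :
    T3 M (fun x y z => p (a x y z) (b x y z) (c x y z)) := by
  have h := Clo.subst hp
    (![fun x => a (x 0) (x 1) (x 2), fun x => b (x 0) (x 1) (x 2), fun x => c (x 0) (x 1) (x 2)] :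
      Fin 3 → (Fin 3 → M.A) → M.A)
    (by
      intro j
      fin_cases j
      · exact ha
      · exact hb
      · exact hc)
  exact h

lemma T3.idem {M : Alg.{u}} (hM : M.Idempotent) {p : M.A → M.A → M.A → M.A} (hp : T3 M p)
    (a : M.A) : p a a a = a := Clo.idem hM hp a

/-- what `SatOn` says for the condition `HM` -/
lemma satOn_HM (M : Alg.{u}) (F : Set (Fin 2 → M.A)) : SatOn M HM F ↔
    ∃ (p q : M.A → M.A → M.A → M.A) (c : M.A → M.A), T3 M p ∧ T3 M q ∧ Clo M 1 (fun x => c (x 0)) ∧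
      (∀ f ∈ F, p (f 0) (f 1) (f 1) = c (f 0)) ∧ (∀ f ∈ F, p (f 0) (f 0) (f 1) = q (f 0) (f 1) (f 1))
      ∧ ∀ f ∈ F, q (f 0) (f 0) (f 1) = c (f 1) := by
  constructor
  · rintro ⟨(d : (j : Fin 3) → (Fin (hmAr j) → M.A) → M.A), (h1 : ∀ j : Fin 3, Clo M (hmAr j) (d j)),
      h2⟩
    have e3 : ∀ x : Fin 3 → M.A, (![x 0, x 1, x 2] : Fin 3 → M.A) = x := by
      intro x; funext j; fin_cases j <;> rfl
    have e1 : ∀ x : Fin 1 → M.A, (![x 0] : Fin 1 → M.A) = x := by
      intro x; funext j; fin_cases j; rfl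
    refine ⟨fun a b c => d 0 (![a, b, c] : Fin 3 → M.A), fun a b c => d 1 (![a, b, c] : Fin 3 → M.A),
      fun a => d 2 (![a] : Fin 1 → M.A), ?_, ?_, ?_, ?_, ?_, ?_⟩
    · have : (fun x : Fin 3 → M.A => d 0 (![x 0, x 1, x 2] : Fin 3 → M.A)) = d 0 := by
        funext x; exact congrArg (d 0) (e3 x)
      show Clo M 3 (fun x : Fin 3 → M.A => d 0 (![x 0, x 1, x 2] : Fin 3 → M.A))
      rw [this]; exact h1 0
    · have : (fun x : Fin 3 → M.A => d 1 (![x 0, x 1, x 2] : Fin 3 → M.A)) = d 1 := by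
        funext x; exact congrArg (d 1) (e3 x)
      show Clo M 3 (fun x : Fin 3 → M.A => d 1 (![x 0, x 1, x 2] : Fin 3 → M.A))
      rw [this]; exact h1 1
    · have : (fun x : Fin 1 → M.A => d 2 (![x 0] : Fin 1 → M.A)) = d 2 := by
        funext x; exact congrArg (d 2) (e1 x)
      show Clo M 1 (fun x : Fin 1 → M.A => d 2 (![x 0] : Fin 1 → M.A))
      rw [this]; exact h1 2
    · intro f hf
      have h := h2 (pxyy, ux) (by left; rfl) f hf
      refine Eq.trans (congrArg (d 0) ?_) (h.trans (congrArg (d 2) ?_))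
      · funext j; change Fin 3 at j; fin_cases j <;> rfl
      · funext j; change Fin 1 at j; fin_cases j; rfl
    · intro f hf
      have h := h2 (pxxy, qxyy) (by right; left; rfl) f hf
      refine Eq.trans (congrArg (d 0) ?_) (h.trans (congrArg (d 1) ?_))
      · funext j; change Fin 3 at j; fin_cases j <;> rfl
      · funext j; change Fin 3 at j; fin_cases j <;> rfl
    · intro f hf
      have h := h2 (qxxy, uy) (by right; right; rfl) f hf
      refine Eq.trans (congrArg (d 1) ?_) (h.trans (congrArg (d 2) ?_))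
      · funext j; change Fin 3 at j; fin_cases j <;> rfl
      · funext j; change Fin 1 at j; fin_cases j; rfl
  · rintro ⟨p, q, c, hp, hq, hc, h1, h2, h3⟩
    refine ⟨fun j : Fin 3 => match j with
      | 0 => fun x : Fin 3 → M.A => p (x 0) (x 1) (x 2)
      | 1 => fun x : Fin 3 → M.A => q (x 0) (x 1) (x 2)
      | 2 => fun x : Fin 1 → M.A => c (x 0), ?_, ?_⟩
    · intro j
      change Fin 3 at j
      fin_cases j
      · exact hp
      · exact hq
      · exact hc
    · intro e he x hx
      rcases he with rfl | rfl | rfl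
      · exact h1 x hx
      · exact h2 x hx
      · exact h3 x hx

/-! ### Idempotent algebras -/

section Idem

variable {M : Alg.{u}}

/-- the three identities hold on three sets of pairs -/
def G (M : Alg.{u}) (F₁ F₂ F₃ : Set (M.A × M.A)) : Prop :=
  ∃ p q : M.A → M.A → M.A → M.A, T3 M p ∧ T3 M q ∧ (∀ a b, (a, b) ∈ F₁ → p a b b = a) ∧
    (∀ a b, (a, b) ∈ F₂ → p a a b = q a b b) ∧ ∀ a b, (a, b) ∈ F₃ → q a a b = b

lemma G.mono {F₁ F₂ F₃ G₁ G₂ G₃ : Set (M.A × M.A)} (h : G M F₁ F₂ F₃) (h1 : G₁ ⊆ F₁)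
    (h2 : G₂ ⊆ F₂) (h3 : G₃ ⊆ F₃) : G M G₁ G₂ G₃ := by
  obtain ⟨p, q, hp, hq, e1, e2, e3⟩ := h
  exact ⟨p, q, hp, hq, fun a b hab => e1 a b (h1 hab), fun a b hab => e2 a b (h2 hab),
    fun a b hab => e3 a b (h3 hab)⟩

lemma stepA (hM : M.Idempotent) (H : ∀ f g h : M.A × M.A, G M {f} {g} {h})
    (H' : ∀ f h : M.A × M.A, G M {f} {f, h} {h}) (f h : M.A × M.A) (F : Set (M.A × M.A))
    (hF : F.Finite) : G M {f} ({f, h} ∪ F) {h} := by
  induction F, hF using Set.Finite.induction_on with
  | empty => simpa using H' f h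
  | @insert g F _ _ ih =>
    obtain ⟨p, q, hp, hq, e1, e2, e3⟩ := ih
    obtain ⟨a₁, b₁⟩ := f
    obtain ⟨a₃, b₃⟩ := h
    obtain ⟨e, f⟩ := g
    obtain ⟨p', q', hp', hq', e1', e2', e3'⟩ := H (a₁, p a₁ a₁ b₁) (p e e f, q e f f)
      (p a₃ a₃ b₃, b₃)
    have e1 := e1 a₁ b₁ rfl
    have e1' := e1' _ _ rfl
    have e2' := e2' _ _ rfl
    have e3 := e3 a₃ b₃ rfl
    have e3' := e3' _ _ rfl
    have k1 : p a₁ a₁ b₁ = q a₁ b₁ b₁ := e2 _ _ (by left; left; rfl)
    have k3 : p a₃ a₃ b₃ = q a₃ b₃ b₃ := e2 _ _ (by left; right; rfl)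
    refine ⟨fun x y z => p' (p x y z) (p x x z) (q x z z),
      fun x y z => q' (p x x z) (q x z z) (q x y z),
      hp'.comp hp (hp.comp T3.x T3.x T3.z) (hq.comp T3.x T3.z T3.z),
      hq'.comp (hp.comp T3.x T3.x T3.z) (hq.comp T3.x T3.z T3.z) hq, ?_, ?_, ?_⟩
    · rintro a b hab
      obtain ⟨rfl, rfl⟩ : a = a₁ ∧ b = b₁ := by simpa using hab
      show p' (p a b b) (p a a b) (q a b b) = a
      rw [e1, ← k1, e1']
    · rintro a b hab
      show p' (p a a b) (p a a b) (q a b b) = q' (p a a b) (q a b b) (q a b b)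
      by_cases hc : (a, b) = (e, f)
      · obtain ⟨rfl, rfl⟩ : a = e ∧ b = f := by simpa using hc
        exact e2'
      · have hab' : (a, b) ∈ ({(a₁, b₁), (a₃, b₃)} : Set (M.A × M.A)) ∪ F := by
          rcases hab with hab | hab
          · exact Or.inl hab
          · rcases hab with hab | hab
            · exact absurd hab hc
            · exact Or.inr hab
        rw [e2 a b hab', hp'.idem hM, hq'.idem hM]
    · rintro a b hab
      obtain ⟨rfl, rfl⟩ : a = a₃ ∧ b = b₃ := by simpa using hab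
      show q' (p a a b) (q a b b) (q a a b) = b
      rw [e3, ← k3, e3']

lemma stepB (hM : M.Idempotent) (h : M.A × M.A)
    (HA : ∀ (f : M.A × M.A) (F : Set (M.A × M.A)), F.Finite → G M {f} F {h})
    (F₁ : Set (M.A × M.A)) (hF₁ : F₁.Finite) :
    ∀ F : Set (M.A × M.A), F.Finite → G M F₁ F {h} := by
  induction F₁, hF₁ using Set.Finite.induction_on with
  | empty =>
    intro F hF
    exact (HA h F hF).mono (Set.empty_subset _) subset_rfl subset_rfl
  | @insert g F₁ _ _ ih =>
    intro F hF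
    obtain ⟨p, q, hp, hq, e1, e2, e3⟩ := ih F hF
    obtain ⟨e, f⟩ := g
    obtain ⟨a₃, b₃⟩ := h
    obtain ⟨p', q', hp', hq', e1', e2', e3'⟩ := HA (e, p e f f)
      ((fun ab : M.A × M.A => (ab.1, p ab.1 ab.1 ab.2)) '' F) (hF.image _)
    have e1' := e1' _ _ rfl
    have e3 := e3 a₃ b₃ rfl
    have e3' := e3' _ _ rfl
    refine ⟨fun x y z => p' x (p x y y) (p x y z), fun x y z => q' x (q x y y) (q x y z),
      hp'.comp T3.x (hp.comp T3.x T3.y T3.y) hp, hq'.comp T3.x (hq.comp T3.x T3.y T3.y) hq,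
      ?_, ?_, ?_⟩
    · rintro a b hab
      show p' a (p a b b) (p a b b) = a
      by_cases hc : (a, b) = (e, f)
      · obtain ⟨rfl, rfl⟩ : a = e ∧ b = f := by simpa using hc
        exact e1'
      · rw [e1 a b (by rcases hab with hab | hab; exacts [absurd hab hc, hab]), hp'.idem hM]
    · rintro a b hab
      show p' a (p a a a) (p a a b) = q' a (q a b b) (q a b b)
      rw [hp.idem hM, ← e2 a b hab]
      exact e2' _ _ ⟨(a, b), hab, rfl⟩
    · rintro a b hab
      obtain ⟨rfl, rfl⟩ : a = a₃ ∧ b = b₃ := by simpa using hab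
      show q' a (q a a a) (q a a b) = b
      rw [hq.idem hM, e3, e3']

lemma stepC (hM : M.Idempotent)
    (HB : ∀ (h : M.A × M.A) (F₁ F : Set (M.A × M.A)), F₁.Finite → F.Finite → G M F₁ F {h})
    (h₀ : M.A × M.A) (F₃ : Set (M.A × M.A)) (hF₃ : F₃.Finite) :
    ∀ F₁ F : Set (M.A × M.A), F₁.Finite → F.Finite → G M F₁ F F₃ := by
  induction F₃, hF₃ using Set.Finite.induction_on with
  | empty =>
    intro F₁ F hF₁ hF
    exact (HB h₀ F₁ F hF₁ hF).mono subset_rfl subset_rfl (Set.empty_subset _)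
  | @insert g F₃ _ _ ih =>
    intro F₁ F hF₁ hF
    obtain ⟨p, q, hp, hq, e1, e2, e3⟩ := ih F₁ F hF₁ hF
    obtain ⟨e, f⟩ := g
    obtain ⟨p', q', hp', hq', e1', e2', e3'⟩ := HB (q e e f, f) F₁
      ((fun ab : M.A × M.A => (p ab.1 ab.1 ab.2, ab.2)) '' F) hF₁ (hF.image _)
    have e3' := e3' _ _ rfl
    refine ⟨fun x y z => p' (p x y z) (p y y z) z, fun x y z => q' (q x y z) (q y y z) z,
      hp'.comp hp (hp.comp T3.y T3.y T3.z) T3.z, hq'.comp hq (hq.comp T3.y T3.y T3.z) T3.z,
      ?_, ?_, ?_⟩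
    · rintro a b hab
      show p' (p a b b) (p b b b) b = a
      rw [hp.idem hM, e1 a b hab, e1' a b hab]
    · rintro a b hab
      show p' (p a a b) (p a a b) b = q' (q a b b) (q b b b) b
      rw [hq.idem hM, ← e2 a b hab]
      exact e2' _ _ ⟨(a, b), hab, rfl⟩
    · rintro a b hab
      show q' (q a a b) (q a a b) b = b
      by_cases hc : (a, b) = (e, f)
      · obtain ⟨rfl, rfl⟩ : a = e ∧ b = f := by simpa using hc
        exact e3'
      · rw [e3 a b (by rcases hab with hab | hab; exacts [absurd hab hc, hab]), hq'.idem hM]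

/-- The condition has the `3`-local-global property for idempotent algebras. -/
theorem idempotent_lgp : KLocalGlobal.{u} Alg.Idempotent 3 HM := by
  classical
  intro M hM hk hloc F hF
  obtain ⟨F₀, hF₀, hc₀⟩ := hk
  -- the local hypothesis
  have key : ∀ f g h : M.A × M.A, G M {f, g, h} {f, g, h} {f, g, h} := by
    intro f g h
    let t : M.A × M.A → (Fin 2 → M.A) := fun a => ![a.1, a.2]
    let s : Finset (Fin 2 → M.A) := {t f, t g, t h}
    have hs3 : s.card ≤ 3 := Finset.card_le_three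
    have hle : 3 ≤ (s ∪ hF₀.toFinset).card := by
      rw [← hc₀, Set.ncard_eq_toFinset_card F₀ hF₀]
      exact Finset.card_le_card Finset.subset_union_right
    obtain ⟨w, hsw, _, hw⟩ := Finset.exists_subsuperset_card_eq
      (Finset.subset_union_left (s₁ := s) (s₂ := hF₀.toFinset)) hs3 hle
    have hsat := hloc (w : Set (Fin 2 → M.A)) w.finite_toSet
      ((Set.ncard_coe_finset w).trans hw)
    obtain ⟨p, q, c, hp, hq, hcc, h1, h2, h3⟩ := (satOn_HM M _).1 hsat
    have hcid : ∀ a, c a = a := fun a => Clo.idem hM hcc a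
    have hmem : ∀ a b : M.A, (a, b) ∈ ({f, g, h} : Set (M.A × M.A)) → t (a, b) ∈ (w : Set _) := by
      rintro a b (hab | hab | hab)
      · rw [hab]; exact hsw (by simp [s])
      · rw [hab]; exact hsw (by simp [s])
      · rw [hab]; exact hsw (by simp [s])
    refine ⟨p, q, hp, hq, ?_, ?_, ?_⟩
    · intro a b hab
      have := h1 _ (hmem a b hab)
      rw [hcid] at this
      exact this
    · intro a b hab
      exact h2 _ (hmem a b hab)
    · intro a b hab
      have := h3 _ (hmem a b hab)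
      rw [hcid] at this
      exact this
  have H : ∀ f g h : M.A × M.A, G M {f} {g} {h} := fun f g h =>
    (key f g h).mono (by simp) (by simp) (by simp)
  have H' : ∀ f h : M.A × M.A, G M {f} {f, h} {h} := fun f h =>
    (key f h h).mono (by simp) (by simp) (by simp)
  have HA : ∀ (f h : M.A × M.A) (F : Set (M.A × M.A)), F.Finite → G M {f} F {h} :=
    fun f h F hF => (stepA hM H H' f h F hF).mono subset_rfl Set.subset_union_right subset_rfl
  have HB : ∀ (h : M.A × M.A) (F₁ F : Set (M.A × M.A)), F₁.Finite → F.Finite → G M F₁ F {h} :=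
    fun h F₁ F hF₁ hF => stepB hM h (fun f F hF => HA f h F hF) F₁ hF₁ F hF
  obtain ⟨a₀⟩ := M.nonempty
  let P : Set (M.A × M.A) := (fun f : Fin 2 → M.A => (f 0, f 1)) '' F
  have hP : P.Finite := hF.image _
  obtain ⟨p, q, hp, hq, e1, e2, e3⟩ := stepC hM HB (a₀, a₀) P hP P P hP hP
  refine (satOn_HM M F).2 ⟨p, q, fun a => a, hp, hq, Clo.proj 0, ?_, ?_, ?_⟩
  · intro f hf; exact e1 _ _ ⟨f, hf, rfl⟩
  · intro f hf; exact e2 _ _ ⟨f, hf, rfl⟩
  · intro f hf; exact e3 _ _ ⟨f, hf, rfl⟩

end Idem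

/-! ### The free construction -/

/-- the elements of the algebra: generators and formal values of the operations -/
inductive T (K : ℕ) : Type u
  | gen : ℕ → T K
  | node : Fin 3 → (Fin K → Fin 2 → T K) → T K → T K → T K → T K

section Free

variable {K : ℕ}

open Classical in
/-- the operation `p` for a list `F` of pairs -/
noncomputable def opP (F : Fin K → Fin 2 → T.{u} K) (a b c : T.{u} K) : T.{u} K :=
  if b = c ∧ ∃ i, F i 0 = a ∧ F i 1 = b then T.node 2 F a a a else T.node 0 F a b c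

open Classical in
/-- the operation `q` for a list `F` of pairs -/
noncomputable def opQ (F : Fin K → Fin 2 → T.{u} K) (a b c : T.{u} K) : T.{u} K :=
  if a = b ∧ ∃ i, F i 0 = a ∧ F i 1 = c then T.node 2 F c c c else
    if b = c ∧ ∃ i, F i 0 = a ∧ F i 1 = b then T.node 0 F a a c else T.node 1 F a b c

/-- the operation `u` for a list `F` of pairs -/
def opU (F : Fin K → Fin 2 → T.{u} K) (a : T.{u} K) : T.{u} K := T.node 2 F a a a

/-- the basic operations; all of them are ternary, the operation `u` depends on its first argument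
only -/
noncomputable def ops (i : Fin 3 × (Fin K → Fin 2 → T.{u} K)) (x : Fin 3 → T.{u} K) : T.{u} K :=
  match i.1 with
  | 0 => opP i.2 (x 0) (x 1) (x 2)
  | 1 => opQ i.2 (x 0) (x 1) (x 2)
  | 2 => opU i.2 (x 0)

/-- the coordinate that can be read off from the value of the operation -/
def hc : Fin 3 → Fin 3
  | 0 => 0
  | 1 => 2
  | 2 => 0

/-- the algebra -/
noncomputable def freeAlg (K : ℕ) : Alg.{u} where
  A := T.{u} K
  nonempty := ⟨T.gen 0⟩
  ι := Fin 3 × (Fin K → Fin 2 → T.{u} K)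
  ar := fun _ => 3
  op := fun i => ops i

/-- In the value of an operation one can read off its list of pairs and one of the arguments. -/
lemma ops_inj {i i' : Fin 3 × (Fin K → Fin 2 → T.{u} K)} {x x' : Fin 3 → T.{u} K}
    (h : ops i x = ops i' x') : i.2 = i'.2 ∧ (i.1 = i'.1 → x (hc i.1) = x' (hc i'.1)) ∧
      (i.1 ≠ i'.1 → ∃ k : Fin K, ∃ l : Fin 2, x (hc i.1) = i.2 k l) := by
  obtain ⟨c, F⟩ := i
  obtain ⟨c', F'⟩ := i'
  fin_cases c <;> fin_cases c' <;>
    simp only [ops, opP, opQ, opU, hc, Fin.zero_eta, Fin.mk_one, Fin.reduceFinMk] at h ⊢ <;>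
    (try split_ifs at h) <;> simp_all <;>
    (obtain ⟨_, k, hk, hk'⟩ := ‹_ ∧ ∃ i, _›
     first
       | (refine ⟨k, Or.inl ?_⟩; simp_all; done)
       | (refine ⟨k, Or.inr ?_⟩; simp_all; done))

lemma ops_ne_gen (i : Fin 3 × (Fin K → Fin 2 → T.{u} K)) (x : Fin 3 → T.{u} K) (n : ℕ) :
    ops i x ≠ T.gen n := by
  obtain ⟨c, F⟩ := i
  fin_cases c <;> simp only [ops, opP, opQ, opU] <;> (try split_ifs) <;> simp

/-- term operations with their head variables -/
inductive HClo (r : ℕ) : ((Fin r → T.{u} K) → T.{u} K) → Fin r → Prop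
  | proj (j : Fin r) : HClo r (fun x => x j) j
  | comp (i : Fin 3 × (Fin K → Fin 2 → T.{u} K)) (g : Fin 3 → (Fin r → T.{u} K) → T.{u} K)
      (h : Fin r) (hg : HClo r (g (hc i.1)) h) : HClo r (fun x => ops i (fun j => g j x)) h

lemma HClo.of_clo {r : ℕ} {g : (Fin r → (freeAlg.{u} K).A) → (freeAlg.{u} K).A}
    (hg : Clo (freeAlg.{u} K) r g) : ∃ h, HClo (K := K) r g h := by
  induction hg with
  | proj j => exact ⟨j, HClo.proj j⟩
  | comp i g _ ih =>
    obtain ⟨h, hh⟩ := ih (hc i.1)
    exact ⟨h, HClo.comp i g h hh⟩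

/-- The value of the head variable is determined by the value of the term. -/
lemma HClo.inj {r : ℕ} {g : (Fin r → T.{u} K) → T.{u} K} {h : Fin r} (hg : HClo r g h)
    {α β : Fin r → T.{u} K} (e : g α = g β) : α h = β h := by
  induction hg with
  | proj j => exact e
  | comp i g h _ ih => exact ih ((ops_inj e).2.1 rfl)

/-- If two terms have the same values at many generators, then every coincidence of their values
forces a coincidence of the values of their head variables. -/
lemma HClo.pair {r : ℕ} {g : (Fin r → T.{u} K) → T.{u} K} {h : Fin r} (hg : HClo r g h) :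
    ∀ {g' : (Fin r → T.{u} K) → T.{u} K} {h' : Fin r}, HClo r g' h' →
      (∀ n ≤ 2 * K, g (fun _ => T.gen n) = g' (fun _ => T.gen n)) →
      ∀ {α β : Fin r → T.{u} K}, g α = g' β → α h = β h' := by
  induction hg with
  | proj j =>
    intro g' h' hg' hs α β e
    cases hg' with
    | proj j' => exact e
    | comp i' g' _ _ => exact absurd (hs 0 (Nat.zero_le _)).symm (ops_ne_gen _ _ _)
  | comp i g h hg ih =>
    intro g' h' hg' hs α β e
    cases hg' with
    | proj j' => exact absurd (hs 0 (Nat.zero_le _)) (ops_ne_gen _ _ _)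
    | comp i' g' _ hg' =>
      by_cases hi : i.1 = i'.1
      · refine ih hg' (fun n hn => ?_) ((ops_inj e).2.1 hi)
        exact (ops_inj (hs n hn)).2.1 hi
      · exfalso
        -- all the values of the head argument at the generators belong to the pairs
        have h1 : ∀ n : Fin (2 * K + 1), ∃ k : Fin K × Fin 2,
            g (hc i.1) (fun _ => T.gen n) = i.2 k.1 k.2 := by
          intro n
          obtain ⟨k, l, hk⟩ := (ops_inj (hs n (Nat.lt_succ_iff.1 n.2))).2.2 hi
          exact ⟨(k, l), hk⟩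
        choose k hk using h1
        obtain ⟨n, n', hne, he⟩ := Fintype.exists_ne_map_eq_of_card_lt k
          (by simp only [Fintype.card_prod, Fintype.card_fin]; omega)
        have h2 := hk n
        rw [he, ← hk n'] at h2
        have h3 := hg.inj h2
        simp only [T.gen.injEq] at h3
        exact hne (Fin.ext h3)

end Free

/-- The condition fails the `k`-local-global property for every `k`. -/
theorem not_lgp (k : ℕ) : ¬ KLocalGlobal.{u} (fun _ => True) k HM := by
  classical
  intro hk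
  have hinf : Infinite (T.{u} k) := Infinite.of_injective T.gen (fun a b h => by simpa using h)
  have hinf' : Infinite (Fin 2 → T.{u} k) := inferInstance
  -- the set on which the condition fails
  let S : Set (Fin 2 → T.{u} k) := insert ![T.gen 0, T.gen 1]
    ((fun n : ℕ => (![T.gen n, T.gen n] : Fin 2 → T.{u} k)) '' Set.Iic (2 * k + 1))
  have hS : S.Finite := ((Set.finite_Iic _).image _).insert _
  obtain ⟨F₀, hF₀⟩ := Infinite.exists_subset_card_eq (Fin 2 → T.{u} k) k
  have hsat := hk (freeAlg.{u} k) trivial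
    ⟨(F₀ : Set (Fin 2 → T.{u} k)), F₀.finite_toSet, (Set.ncard_coe_finset F₀).trans hF₀⟩ ?_ S hS
  · obtain ⟨p, q, c, hp, hq, hcc, h1, h2, h3⟩ := (satOn_HM (freeAlg.{u} k) S).1 hsat
    obtain ⟨h, hh⟩ := HClo.of_clo (K := k) (r := 3) hp
    obtain ⟨h', hh'⟩ := HClo.of_clo (K := k) (r := 3) hq
    have m01 : (![T.gen 0, T.gen 1] : Fin 2 → T.{u} k) ∈ S := Set.mem_insert _ _
    have mnn : ∀ n ≤ 2 * k + 1, (![T.gen n, T.gen n] : Fin 2 → T.{u} k) ∈ S :=
      fun n hn => Set.mem_insert_of_mem _ ⟨n, hn, rfl⟩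
    have p1 : p (T.gen 0) (T.gen 1) (T.gen 1) = c (T.gen 0) := h1 _ m01
    have p2 : p (T.gen 0) (T.gen 0) (T.gen 0) = c (T.gen 0) := h1 _ (mnn 0 (by omega))
    have q1 : q (T.gen 0) (T.gen 0) (T.gen 1) = c (T.gen 1) := h3 _ m01
    have q2 : q (T.gen 1) (T.gen 1) (T.gen 1) = c (T.gen 1) := h3 _ (mnn 1 (by omega))
    have pq : p (T.gen 0) (T.gen 0) (T.gen 1) = q (T.gen 0) (T.gen 1) (T.gen 1) := h2 _ m01
    have hp0 : h = 0 := by
      have e := hh.inj (α := ![T.gen 0, T.gen 1, T.gen 1]) (β := ![T.gen 0, T.gen 0, T.gen 0])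
        (p1.trans p2.symm)
      fin_cases h
      · rfl
      · simp at e
      · simp at e
    have hq2 : h' = 2 := by
      have e := hh'.inj (α := ![T.gen 0, T.gen 0, T.gen 1]) (β := ![T.gen 1, T.gen 1, T.gen 1])
        (q1.trans q2.symm)
      fin_cases h'
      · simp at e
      · simp at e
      · rfl
    have e := hh.pair hh' (fun n hn => h2 _ (mnn n (by omega)))
      (α := ![T.gen 0, T.gen 0, T.gen 1]) (β := ![T.gen 0, T.gen 1, T.gen 1]) pq
    subst hp0 hq2
    simp at e
  · intro (F : Set (Fin 2 → T.{u} k)) (hF : F.Finite) (hFk : F.ncard = k)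
    -- the condition holds on every set with exactly `k` elements
    obtain ⟨e⟩ : Nonempty (Fin k ≃ F) := by
      have := hF.fintype
      refine ⟨(Fintype.equivFinOfCardEq ?_).symm⟩
      rw [Set.ncard_eq_toFinset_card', Set.toFinset_card] at hFk
      exact hFk
    let P : Fin k → Fin 2 → T.{u} k := fun i => (e i).1
    have hP : ∀ f ∈ F, ∃ i, P i 0 = f 0 ∧ P i 1 = f 1 := by
      intro f hf
      exact ⟨e.symm ⟨f, hf⟩, by simp [P]⟩
    refine (satOn_HM (freeAlg.{u} k) F).2 ⟨opP P, opQ P, opU P, ?_, ?_, ?_, ?_, ?_, ?_⟩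
    · exact Clo.comp (M := freeAlg.{u} k) ((0 : Fin 3), P) (fun j x => x j) (fun j => Clo.proj j)
    · exact Clo.comp (M := freeAlg.{u} k) ((1 : Fin 3), P) (fun j x => x j) (fun j => Clo.proj j)
    · exact Clo.comp (M := freeAlg.{u} k) ((2 : Fin 3), P) (fun _ x => x 0) (fun j => Clo.proj 0)
    · intro (f : Fin 2 → T.{u} k) hf
      have h := hP f hf
      show opP P (f 0) (f 1) (f 1) = opU P (f 0)
      simp only [opP, opU]
      rw [if_pos ⟨trivial, h⟩]
    · intro (f : Fin 2 → T.{u} k) hf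
      have h := hP f hf
      show opP P (f 0) (f 0) (f 1) = opQ P (f 0) (f 1) (f 1)
      simp only [opP, opQ]
      by_cases hfe : f 0 = f 1
      · rw [hfe] at h ⊢
        rw [if_pos ⟨rfl, h⟩, if_pos ⟨rfl, h⟩]
      · rw [if_neg (fun hh => hfe hh.1), if_neg (fun hh => hfe hh.1), if_pos ⟨trivial, h⟩]
    · intro (f : Fin 2 → T.{u} k) hf
      have h := hP f hf
      show opQ P (f 0) (f 0) (f 1) = opU P (f 1)
      simp only [opQ, opU]
      rw [if_pos ⟨trivial, h⟩]

/-- **Main theorem.** There is a strong Maltsev condition of height 1 that has the local-global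
property for the class of idempotent algebras but does not have the local-global property. -/
theorem result :
    (KLocalGlobal.{u} Alg.Idempotent 3 HM ∧ ∀ k : ℕ, ¬ KLocalGlobal.{u} (fun _ => True) k HM) ∧
      ¬ ∀ S : Height1, LocalGlobal.{u} (fun _ => True) S ↔ LocalGlobal.{u} Alg.Idempotent S := by
  refine ⟨⟨idempotent_lgp, not_lgp⟩, fun h => ?_⟩
  obtain ⟨k, _, hk⟩ := (h HM).2 ⟨3, by norm_num, idempotent_lgp⟩
  exact not_lgp k hk

end Pool.Agent.Results.MP_c8915d_al.HagemannMitschke
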